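import Pool.Agent.W106.MN.Tr

set_option autoImplicit false
open scoped ComplexConjugate InnerProductSpace Matrix Kronecker

namespace Pool.Agent.W106.MN

variable {A Z : Type*} [Fintype A] [DecidableEq A] [Fintype Z] [DecidableEq Z]

/-- vector of the family -/
noncomputable abbrev vec (P : A → Z → ℂ) (i : A) : EuclideanSpace ℂ Z := WithLp.toLp 2 (P i)

omit [Fintype A] [DecidableEq A] [DecidableEq Z] in
theorem inner_vec (P Q : A → Z → ℂ) (i j : A) :
    ⟪vec P i, vec Q j⟫_ℂ = ∑ z, Q j z * star (P i z) := by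
  simp only [PiLp.inner_apply, RCLike.inner_apply, Complex.star_def]

omit [DecidableEq A] [DecidableEq Z] in
/-- the trace of a product of two partially transposed rank one matrices -/
theorem trace_GM (v P : A → Z → ℂ) :
    (GM v * GM P).trace = ∑ i, ∑ j, ⟪vec P j, vec v j⟫_ℂ * ⟪vec v i, vec P i⟫_ℂ := by
  simp only [inner_vec, GM, Matrix.trace, Matrix.diag_apply, Matrix.mul_apply, Matrix.of_apply,
    Fintype.sum_prod_type, Finset.sum_mul, Finset.mul_sum]
  -- LHS ∑ i ∑ β ∑ i' ∑ β'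
  refine Finset.sum_congr rfl fun i _ => ?_
  rw [Finset.sum_comm]
  refine Finset.sum_congr rfl fun j _ => ?_
  rw [Finset.sum_comm]
  refine Finset.sum_congr rfl fun β _ => Finset.sum_congr rfl fun β' _ => ?_
  ring

omit [DecidableEq A] [DecidableEq Z] in
theorem form_GM (v : A → Z → ℂ) (u : A × Z → ℂ) :
    star u ⬝ᵥ (GM v *ᵥ u) =
      ∑ i, ∑ j, star ⟪vec v j, vec (fun a z => u (a, z)) i⟫_ℂ *
        ⟪vec v i, vec (fun a z => u (a, z)) j⟫_ℂ := by
  simp only [inner_vec, GM, dotProduct, Matrix.mulVec, Matrix.of_apply, Pi.star_apply,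
    Fintype.sum_prod_type, Finset.sum_mul, Finset.mul_sum, star_sum, star_mul', star_star]
  refine Finset.sum_congr rfl fun i _ => ?_
  rw [Finset.sum_comm]
  refine Finset.sum_congr rfl fun j _ => ?_
  rw [Finset.sum_comm]
  refine Finset.sum_congr rfl fun β _ => Finset.sum_congr rfl fun β' _ => ?_
  ring

/-- Bessel for a family of orthogonal vectors of norm one or zero. -/
theorem bessel {H : Type*} [NormedAddCommGroup H] [InnerProductSpace ℂ H] (v : A → H)
    (h0 : ∀ i j, i ≠ j → ⟪v i, v j⟫_ℂ = 0) (h1 : ∀ i, v i ≠ 0 → ‖v i‖ = 1) (x : H) :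
    ∑ i, ‖⟪v i, x⟫_ℂ‖ ^ 2 ≤ ‖x‖ ^ 2 := by
  classical
  have ho : Orthonormal ℂ (fun i : {i : A // v i ≠ 0} => v i) := by
    constructor
    · intro i; exact h1 i i.2
    · intro i j hij
      exact h0 i j (fun h => hij (Subtype.ext h))
  have h2 := ho.sum_inner_products_le (s := Finset.univ) x
  refine le_trans (le_of_eq ?_) h2
  rw [← Finset.sum_subtype (Finset.univ.filter fun i => v i ≠ 0) (by simp)
    (fun i => ‖⟪v i, x⟫_ℂ‖ ^ 2)]
  symm
  apply Finset.sum_subset (Finset.filter_subset _ _)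
  intro i _ hi
  have : v i = 0 := by simpa using hi
  rw [this, inner_zero_left]
  simp

omit [DecidableEq A] in
/-- lower bound for the negativity for an orthogonal family -/
theorem low [DecidableEq A] (P : A → Z → ℂ) (V : Matrix A A ℂ) (hV : Vᴴ * V = 1) (hV' : V * Vᴴ = 1)
    (hP : ∀ i j, i ≠ j → ⟪vec (chg V P) i, vec (chg V P) j⟫_ℂ = 0)
    (hG : (GM P).IsHermitian) :
    ∑ i, ∑ j, (if i = j then 0 else ‖vec (chg V P) i‖ * ‖vec (chg V P) j‖) ≤
      ∑ i, (|hG.eigenvalues i| - hG.eigenvalues i) := by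
  set Q := chg V P with hQ
  set W := (V ⊗ₖ (1 : Matrix Z Z ℂ)) with hW
  have hWW : W * Wᴴ = 1 := kron_unit hV'
  have hWW' : Wᴴ * W = 1 := mul_eq_one_comm.mp hWW
  set v : A → Z → ℂ := fun i z => ((‖vec Q i‖⁻¹ : ℝ) : ℂ) * Q i z with hv
  have hvv : ∀ i, vec v i = ((‖vec Q i‖⁻¹ : ℝ) : ℂ) • vec Q i := by
    intro i
    ext z
    simp [hv]
  have hb : ∀ x : EuclideanSpace ℂ Z, ∑ i, ‖⟪vec v i, x⟫_ℂ‖ ^ 2 ≤ ‖x‖ ^ 2 := by
    intro x
    apply bessel
    · intro i j hij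
      rw [hvv, hvv, inner_smul_left, inner_smul_right, hP i j hij, mul_zero, mul_zero]
    · intro i hi
      rw [hvv, norm_smul, Complex.norm_real, norm_inv, norm_norm]
      apply inv_mul_cancel₀
      intro h
      apply hi
      rw [hvv, h]; simp
  have hG' : GM Q = Wᴴ * GM P * W := GM_chg V P
  have hS : ∀ u : A × Z → ℂ, ‖star u ⬝ᵥ ((W * GM v * Wᴴ) *ᵥ u)‖ ≤ ∑ i, ‖u i‖ ^ 2 := by
    intro u
    have e1 : star u ⬝ᵥ ((W * GM v * Wᴴ) *ᵥ u) = star (Wᴴ *ᵥ u) ⬝ᵥ (GM v *ᵥ (Wᴴ *ᵥ u)) := by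
      rw [Matrix.mul_assoc, ← Matrix.mulVec_mulVec, ← Matrix.mulVec_mulVec, Matrix.star_mulVec,
        Matrix.conjTranspose_conjTranspose, Matrix.dotProduct_mulVec]
    have e2 : ∑ i, ‖u i‖ ^ 2 = ∑ i, ‖(Wᴴ *ᵥ u) i‖ ^ 2 := by
      have key : ∀ w : A × Z → ℂ, ((∑ i, ‖w i‖ ^ 2 : ℝ) : ℂ) = star w ⬝ᵥ w := by
        intro w
        push_cast
        simp only [dotProduct, Pi.star_apply, Complex.star_def]
        refine Finset.sum_congr rfl fun i _ => ?_
        rw [← Complex.normSq_eq_conj_mul_self, Complex.normSq_eq_norm_sq]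
        push_cast
        rfl
      have h1 := key u
      have h2 := key (Wᴴ *ᵥ u)
      rw [Matrix.star_mulVec, Matrix.conjTranspose_conjTranspose, ← Matrix.dotProduct_mulVec,
        Matrix.mulVec_mulVec, hWW, Matrix.one_mulVec, ← h1] at h2
      exact_mod_cast h2.symm
    rw [e1, e2, form_GM]
    set w := Wᴴ *ᵥ u with hw
    set c : A → A → ℂ := fun i j => ⟪vec v i, vec (fun a z => w (a, z)) j⟫_ℂ with hc
    have e3 : ‖∑ i, ∑ j, star (c j i) * c i j‖ ≤ ∑ i, ∑ j, ‖c i j‖ ^ 2 := by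
      have h1 : ‖∑ i, ∑ j, star (c j i) * c i j‖ ≤ ∑ i, ∑ j, ‖c j i‖ * ‖c i j‖ := by
        refine (norm_sum_le _ _).trans (Finset.sum_le_sum fun i _ => ?_)
        refine (norm_sum_le _ _).trans (Finset.sum_le_sum fun j _ => ?_)
        rw [norm_mul, norm_star]
      have h2 : 2 * ∑ i, ∑ j, ‖c j i‖ * ‖c i j‖ ≤ ∑ i, ∑ j, ‖c j i‖ ^ 2 + ∑ i, ∑ j, ‖c i j‖ ^ 2 := by
        rw [← Finset.sum_add_distrib, Finset.mul_sum]
        refine Finset.sum_le_sum fun i _ => ?_
        rw [← Finset.sum_add_distrib, Finset.mul_sum]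
        refine Finset.sum_le_sum fun j _ => ?_
        nlinarith [sq_nonneg (‖c j i‖ - ‖c i j‖)]
      rw [Finset.sum_comm (f := fun i j => ‖c j i‖ ^ 2)] at h2
      linarith
    refine e3.trans ?_
    rw [Finset.sum_comm, Fintype.sum_prod_type]
    refine Finset.sum_le_sum fun j _ => ?_
    refine (hb _).trans (le_of_eq ?_)
    rw [EuclideanSpace.norm_sq_eq]
  have h1 := neg_ge hG hS
  have h2 : (W * GM v * Wᴴ * GM P).trace = (GM v * GM Q).trace := by
    rw [hG', Matrix.mul_assoc, Matrix.mul_assoc, Matrix.trace_mul_comm]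
    simp only [Matrix.mul_assoc]
  have h3 : (GM P).trace = (GM Q).trace := by
    rw [hG', Matrix.trace_mul_comm, ← Matrix.mul_assoc, hWW, Matrix.one_mul]
  have h4 : (GM Q).trace = ((∑ i, ‖vec Q i‖ ^ 2 : ℝ) : ℂ) := by
    simp only [Matrix.trace, Matrix.diag_apply, GM, Matrix.of_apply, Fintype.sum_prod_type]
    push_cast
    refine Finset.sum_congr rfl fun i _ => ?_
    rw [← Complex.ofReal_pow, EuclideanSpace.norm_sq_eq]
    push_cast
    refine Finset.sum_congr rfl fun z _ => ?_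
    rw [Complex.star_def, ← Complex.mul_conj']
  have h5 : (GM v * GM Q).trace = (((∑ i, ‖vec Q i‖) ^ 2 : ℝ) : ℂ) := by
    rw [trace_GM]
    have e1 : ∀ i, ⟪vec v i, vec Q i⟫_ℂ = (‖vec Q i‖ : ℂ) := by
      intro i
      rw [hvv, inner_smul_left, inner_self_eq_norm_sq_to_K, Complex.conj_ofReal]
      by_cases h : ‖vec Q i‖ = 0
      · rw [h]; simp
      · have h' : (‖vec Q i‖ : ℂ) ≠ 0 := by exact_mod_cast h
        push_cast
        field_simp
        norm_cast
    have e2 : ∀ i, ⟪vec Q i, vec v i⟫_ℂ = (‖vec Q i‖ : ℂ) := by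
      intro i
      rw [← inner_conj_symm, e1, Complex.conj_ofReal]
    simp only [e1, e2]
    push_cast
    rw [sq, Finset.sum_mul_sum]
    refine Finset.sum_congr rfl fun i _ => Finset.sum_congr rfl fun j _ => ?_
    ring
  rw [h2, h3, h4, h5, Complex.ofReal_re, Complex.ofReal_re] at h1
  refine le_trans (le_of_eq ?_) h1
  rw [sq, Finset.sum_mul_sum, ← Finset.sum_sub_distrib]
  refine Finset.sum_congr rfl fun i _ => ?_
  rw [← Finset.add_sum_erase _ (fun j => ‖vec Q i‖ * ‖vec Q j‖) (Finset.mem_univ i),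
    ← Finset.add_sum_erase Finset.univ (fun j => if i = j then (0:ℝ) else _) (Finset.mem_univ i),
    if_pos rfl]
  have : ∑ x ∈ Finset.univ.erase i, (if i = x then (0:ℝ) else ‖vec Q i‖ * ‖vec Q x‖) =
      ∑ x ∈ Finset.univ.erase i, ‖vec Q i‖ * ‖vec Q x‖ := by
    refine Finset.sum_congr rfl fun x hx => ?_
    rw [if_neg (Finset.ne_of_mem_erase hx).symm]
  rw [this]
  ring

/-- Diagonalising the Gram matrix. -/
theorem exists_diag (P : A → Z → ℂ) : ∃ V : Matrix A A ℂ, Vᴴ * V = 1 ∧ V * Vᴴ = 1 ∧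
    ∀ i j, i ≠ j → ⟪vec (chg V P) i, vec (chg V P) j⟫_ℂ = 0 := by
  set R : Matrix A A ℂ := Matrix.of fun i k => ⟪vec P i, vec P k⟫_ℂ with hR
  have hRH : R.IsHermitian := by
    ext i j
    simp only [hR, Matrix.conjTranspose_apply, Matrix.of_apply, Complex.star_def]
    exact inner_conj_symm _ _
  obtain ⟨V, h1, h2, h3⟩ := spec hRH
  refine ⟨V, h1, h2, fun i j hij => ?_⟩
  have h4 : ⟪vec (chg V P) i, vec (chg V P) j⟫_ℂ = (Vᴴ * R * V) i j := by
    have e : ∀ i, vec (chg V P) i = ∑ k, V k i • vec P k := by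
      intro i
      ext z
      simp [chg]
    rw [e, e, sum_inner, Matrix.mul_assoc, Matrix.mul_apply]
    refine Finset.sum_congr rfl fun k _ => ?_
    rw [inner_sum, Matrix.mul_apply, Finset.mul_sum]
    refine Finset.sum_congr rfl fun l _ => ?_
    rw [inner_smul_left, inner_smul_right]
    simp only [hR, Matrix.conjTranspose_apply, Matrix.of_apply, Complex.star_def]
    ring
  rw [h4]
  conv_lhs => rw [h3]
  have h5 : Vᴴ * (V * Matrix.diagonal (fun i => (hRH.eigenvalues i : ℂ)) * Vᴴ) * V =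
      (Vᴴ * V) * Matrix.diagonal (fun i => (hRH.eigenvalues i : ℂ)) * (Vᴴ * V) := by
    simp only [Matrix.mul_assoc]
  rw [h5, h1, Matrix.one_mul, Matrix.mul_one, Matrix.diagonal_apply_ne _ hij]

/-- The main theorem for arbitrary finite index types. -/
theorem main {B C : Type*} [Fintype B] [DecidableEq B] [Fintype C] [DecidableEq C]
    (P : A → B × C → ℂ) (hG : (GM P).IsHermitian) (hB : (GB P).IsHermitian)
    (hC : (GC P).IsHermitian) :
    (∑ i, (|hB.eigenvalues i| - hB.eigenvalues i)) ^ 2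
      + (∑ i, (|hC.eigenvalues i| - hC.eigenvalues i)) ^ 2
      ≤ (∑ i, (|hG.eigenvalues i| - hG.eigenvalues i)) ^ 2 := by
  obtain ⟨V, hV, hV', hP⟩ := exists_diag P
  obtain ⟨E, hE1, hE2, hE3⟩ := neg_proj hC
  obtain ⟨F, hF1, hF2, hF3⟩ := neg_proj hB
  have hlow := low P V hV hV' hP hG
  set NB := ∑ i, (|hB.eigenvalues i| - hB.eigenvalues i) with hNB
  set NC := ∑ i, (|hC.eigenvalues i| - hC.eigenvalues i) with hNC
  set NG := ∑ i, (|hG.eigenvalues i| - hG.eigenvalues i) with hNG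
  have hNB0 : 0 ≤ NB := Finset.sum_nonneg fun i _ => sub_nonneg.mpr (le_abs_self _)
  have hNC0 : 0 ≤ NC := Finset.sum_nonneg fun i _ => sub_nonneg.mpr (le_abs_self _)
  have hNG0 : 0 ≤ NG := Finset.sum_nonneg fun i _ => sub_nonneg.mpr (le_abs_self _)
  -- the linear inequality
  have hlin : ∀ c s : ℝ, 0 ≤ c → 0 ≤ s → c ^ 2 + s ^ 2 = 1 → c * NC + s * NB ≤ NG := by
    intro c s hc hs hcs
    set WB := (V ⊗ₖ (1 : Matrix B B ℂ)) with hWB
    set WC := (V ⊗ₖ (1 : Matrix C C ℂ)) with hWC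
    have hWB1 : WB * WBᴴ = 1 := kron_unit hV'
    have hWC1 : WC * WCᴴ = 1 := kron_unit hV'
    have hWB2 : WBᴴ * WB = 1 := mul_eq_one_comm.mp hWB1
    have hWC2 : WCᴴ * WC = 1 := mul_eq_one_comm.mp hWC1
    have hE1' : (WBᴴ * E * WB)ᴴ = WBᴴ * E * WB := by
      rw [Matrix.conjTranspose_mul, Matrix.conjTranspose_mul, Matrix.conjTranspose_conjTranspose,
        hE1, Matrix.mul_assoc]
    have hF1' : (WCᴴ * F * WC)ᴴ = WCᴴ * F * WC := by
      rw [Matrix.conjTranspose_mul, Matrix.conjTranspose_mul, Matrix.conjTranspose_conjTranspose,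
        hF1, Matrix.mul_assoc]
    have hE2' : (WBᴴ * E * WB) * (WBᴴ * E * WB) = WBᴴ * E * WB := by
      have : (WBᴴ * E * WB) * (WBᴴ * E * WB) = WBᴴ * (E * (WB * WBᴴ) * E) * WB := by
        simp only [Matrix.mul_assoc]
      rw [this, hWB1, Matrix.mul_one, hE2]
    have hF2' : (WCᴴ * F * WC) * (WCᴴ * F * WC) = WCᴴ * F * WC := by
      have : (WCᴴ * F * WC) * (WCᴴ * F * WC) = WCᴴ * (F * (WC * WCᴴ) * F) * WC := by
        simp only [Matrix.mul_assoc]
      rw [this, hWC1, Matrix.mul_one, hF2]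
    have tE : (WBᴴ * E * WB * GC (chg V P)).trace = (E * GC P).trace := by
      rw [GC_chg V P, ← hWB]
      have : WBᴴ * E * WB * (WBᴴ * GC P * WB) = WBᴴ * (E * (WB * WBᴴ) * GC P * WB) := by
        simp only [Matrix.mul_assoc]
      rw [this, hWB1, Matrix.mul_one, Matrix.trace_mul_comm, Matrix.mul_assoc, hWB1, Matrix.mul_one]
    have tF : (WCᴴ * F * WC * GB (chg V P)).trace = (F * GB P).trace := by
      rw [GB_chg V P, ← hWC]
      have : WCᴴ * F * WC * (WCᴴ * GB P * WC) = WCᴴ * (F * (WC * WCᴴ) * GB P * WC) := by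
        simp only [Matrix.mul_assoc]
      rw [this, hWC1, Matrix.mul_one, Matrix.trace_mul_comm, Matrix.mul_assoc, hWC1, Matrix.mul_one]
    have hc1 := core (H := HS B C) (isProjB (C := C) hE1' hE2') (isProjC (B := B) hF1' hF2')
      (fun i j k l x => blk_comm _ _ x) hc hs hcs (fun i => vec (chg V P) i)
    rw [← traceB, ← traceC, tE, tF, ← hE3, ← hF3] at hc1
    exact hc1.trans hlow
  by_cases h0 : NB ^ 2 + NC ^ 2 = 0
  · rw [h0]; positivity
  · have hr : 0 < NB ^ 2 + NC ^ 2 := lt_of_le_of_ne (by positivity) (Ne.symm h0)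
    set r := Real.sqrt (NB ^ 2 + NC ^ 2) with hrdef
    have hr0 : 0 < r := Real.sqrt_pos.mpr hr
    have hr2 : r ^ 2 = NB ^ 2 + NC ^ 2 := Real.sq_sqrt hr.le
    have h := hlin (NC / r) (NB / r) (by positivity) (by positivity)
      (by rw [div_pow, div_pow, ← add_div, hr2, add_comm, div_self h0])
    have h2 : NC / r * NC + NB / r * NB = r := by
      field_simp
      rw [hr2]; ring
    rw [h2] at h
    rw [← hr2]
    exact pow_le_pow_left₀ hr0.le h 2

end Pool.Agent.W106.MN
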