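import Mathlib

set_option autoImplicit false
open scoped ComplexConjugate InnerProductSpace

namespace Pool.Agent.W106.MN

/-- The real inequality behind the pair estimate. -/
theorem real_pair (X P Q α β R : ℝ) (hP : 0 ≤ P) (hQ : 0 ≤ Q) (hα : 0 ≤ α)
    (hβ : 0 ≤ β) (h1 : X ^ 2 ≤ P ^ 2 * (Q ^ 2 / 4 + α)) (h2 : X ^ 2 ≤ Q ^ 2 * (P ^ 2 / 4 + β))
    (hR : α + β ≤ R) : 2 * X ≤ P * Q + R := by
  have hR0 : 0 ≤ R := by linarith
  have hPQ : 0 ≤ P * Q := mul_nonneg hP hQ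
  by_contra hcon
  push Not at hcon
  have h3 : (P * Q + R) ^ 2 < (2 * X) ^ 2 := by
    apply pow_lt_pow_left₀ hcon (by linarith) (by norm_num)
  have h4 : 2 * (P * Q * R) < 4 * (P ^ 2 * α) := by nlinarith [sq_nonneg R]
  have h5 : 2 * (P * Q * R) < 4 * (Q ^ 2 * β) := by nlinarith [sq_nonneg R]
  have h6 : 0 ≤ P * Q * R := mul_nonneg hPQ hR0
  have h7 : (2 * (P * Q * R)) * (2 * (P * Q * R)) < (4 * (P ^ 2 * α)) * (4 * (Q ^ 2 * β)) := by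
    apply mul_lt_mul'' h4 h5 (by linarith) (by linarith)
  have h8 : (α + β) ^ 2 ≤ R ^ 2 := pow_le_pow_left₀ (by linarith) hR 2
  have h9 : 4 * (α * β) ≤ R ^ 2 := by nlinarith [sq_nonneg (α - β)]
  have h10 : (P * Q) ^ 2 * (4 * (α * β)) ≤ (P * Q) ^ 2 * R ^ 2 :=
    mul_le_mul_of_nonneg_left h9 (sq_nonneg _)
  nlinarith [h7, h10]

variable {H : Type*} [NormedAddCommGroup H] [InnerProductSpace ℂ H]
variable {ι : Type*} [Fintype ι] [DecidableEq ι]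

/-- A block projection: a Hermitian idempotent matrix of operators. -/
structure IsProj (E : ι → ι → H → H) : Prop where
  adj : ∀ i j x y, ⟪x, E i j y⟫_ℂ = ⟪E j i x, y⟫_ℂ
  mul : ∀ i j x, ∑ k, E i k (E k j x) = E i j x

theorem IsProj.diag {E : ι → ι → H → H} (hE : IsProj E) (i : ι) (p : H) :
    (⟪p, E i i p⟫_ℂ).re = ∑ k, ‖E k i p‖ ^ 2 := by
  conv_lhs => rw [← hE.mul i i p]
  rw [inner_sum, Complex.re_sum]
  refine Finset.sum_congr rfl fun k _ => ?_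
  rw [hE.adj i k, inner_self_eq_norm_sq_to_K]
  norm_cast

theorem IsProj.half {E : ι → ι → H → H} (hE : IsProj E) {i j : ι} (hij : i ≠ j) (w : H) :
    ‖E i j w‖ ^ 2 ≤ ‖w‖ ^ 2 / 4 := by
  have h1 := hE.diag j w
  have h2 : ‖E i j w‖ ^ 2 + ‖E j j w‖ ^ 2 ≤ ∑ k, ‖E k j w‖ ^ 2 := by
    have : ∑ k ∈ ({i, j} : Finset ι), ‖E k j w‖ ^ 2 ≤ ∑ k, ‖E k j w‖ ^ 2 :=
      Finset.sum_le_univ_sum_of_nonneg fun k => sq_nonneg _
    rwa [Finset.sum_pair hij] at this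
  have h3 : (⟪w, E j j w⟫_ℂ).re ≤ ‖w‖ * ‖E j j w‖ :=
    (Complex.re_le_norm _).trans (norm_inner_le_norm _ _)
  nlinarith [sq_nonneg (‖w‖ / 2 - ‖E j j w‖)]

theorem Msq {E F : ι → ι → H → H} (hE : IsProj E) (hF : IsProj F)
    (hEF : ∀ i j k l x, E i j (F k l x) = F k l (E i j x)) {c s : ℝ} (hc : 0 ≤ c) (hs : 0 ≤ s)
    (hcs : c ^ 2 + s ^ 2 = 1) {i j : ι} (hij : i ≠ j) (q : H) :
    ‖(c : ℂ) • E i j q + (s : ℂ) • F i j q‖ ^ 2 ≤
      ‖q‖ ^ 2 / 4 + 2 * (c * s) * (‖E j i q‖ * ‖F j i q‖) := by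
  have h1 : ‖(c : ℂ) • E i j q + (s : ℂ) • F i j q‖ ^ 2 =
      c ^ 2 * ‖E i j q‖ ^ 2 + 2 * (c * s) * (⟪E i j q, F i j q⟫_ℂ).re + s ^ 2 * ‖F i j q‖ ^ 2 := by
    rw [@norm_add_sq ℂ]
    rw [norm_smul, norm_smul, inner_smul_left, inner_smul_right]
    simp only [Complex.norm_real, Real.norm_eq_abs, mul_pow, sq_abs, Complex.conj_ofReal]
    have : RCLike.re ((c : ℂ) * ((s : ℂ) * ⟪E i j q, F i j q⟫_ℂ)) =
        c * s * (⟪E i j q, F i j q⟫_ℂ).re := by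
      rw [← mul_assoc, ← Complex.ofReal_mul]
      change Complex.re _ = _
      rw [Complex.re_ofReal_mul]
    rw [this]; ring
  have h2 : ⟪E i j q, F i j q⟫_ℂ = ⟪F j i q, E j i q⟫_ℂ := by
    rw [← hE.adj j i, hEF, hF.adj i j]
  have h3 : (⟪E i j q, F i j q⟫_ℂ).re ≤ ‖E j i q‖ * ‖F j i q‖ := by
    rw [h2, mul_comm]
    exact (Complex.re_le_norm _).trans (norm_inner_le_norm _ _)
  have h4 := hE.half hij q
  have h5 := hF.half hij q
  have h6 : 0 ≤ c * s := mul_nonneg hc hs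
  rw [h1]
  have h7 : c ^ 2 * ‖E i j q‖ ^ 2 ≤ c ^ 2 * (‖q‖ ^ 2 / 4) := mul_le_mul_of_nonneg_left h4 (sq_nonneg _)
  have h8 : s ^ 2 * ‖F i j q‖ ^ 2 ≤ s ^ 2 * (‖q‖ ^ 2 / 4) := mul_le_mul_of_nonneg_left h5 (sq_nonneg _)
  have h9 : 2 * (c * s) * (⟪E i j q, F i j q⟫_ℂ).re ≤ 2 * (c * s) * (‖E j i q‖ * ‖F j i q‖) :=
    mul_le_mul_of_nonneg_left h3 (by linarith)
  have h10 : c ^ 2 * (‖q‖ ^ 2 / 4) + s ^ 2 * (‖q‖ ^ 2 / 4) = ‖q‖ ^ 2 / 4 := by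
    rw [← add_mul, hcs, one_mul]
  linarith

/-- pair estimate -/
theorem pair {E F : ι → ι → H → H} (hE : IsProj E) (hF : IsProj F)
    (hEF : ∀ i j k l x, E i j (F k l x) = F k l (E i j x)) {c s : ℝ} (hc : 0 ≤ c) (hs : 0 ≤ s)
    (hcs : c ^ 2 + s ^ 2 = 1) {i j : ι} (hij : i ≠ j) (p q : H) :
    2 * ‖⟪p, (c : ℂ) • E j i q + (s : ℂ) • F j i q⟫_ℂ‖ ≤
      ‖p‖ * ‖q‖ + (c * (‖E i j q‖ ^ 2 + ‖E j i p‖ ^ 2) + s * (‖F i j q‖ ^ 2 + ‖F j i p‖ ^ 2)) := by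
  have hc1 : c ≤ 1 := by nlinarith
  have hs1 : s ≤ 1 := by nlinarith
  have hcs0 : 0 ≤ c * s := mul_nonneg hc hs
  refine real_pair _ ‖p‖ ‖q‖ (2 * (c * s) * (‖E i j q‖ * ‖F i j q‖))
    (2 * (c * s) * (‖E j i p‖ * ‖F j i p‖)) _ (norm_nonneg _) (norm_nonneg _)
    (by positivity) (by positivity) ?_ ?_ ?_
  · have h1 := Msq hE hF hEF hc hs hcs hij.symm q
    have h2 : ‖⟪p, (c : ℂ) • E j i q + (s : ℂ) • F j i q⟫_ℂ‖ ^ 2 ≤
        (‖p‖ * ‖(c : ℂ) • E j i q + (s : ℂ) • F j i q‖) ^ 2 :=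
      pow_le_pow_left₀ (norm_nonneg _) (norm_inner_le_norm _ _) 2
    rw [mul_pow] at h2
    exact h2.trans (mul_le_mul_of_nonneg_left h1 (sq_nonneg _))
  · have h1 := Msq hE hF hEF hc hs hcs hij p
    have h0 : ⟪p, (c : ℂ) • E j i q + (s : ℂ) • F j i q⟫_ℂ =
        ⟪(c : ℂ) • E i j p + (s : ℂ) • F i j p, q⟫_ℂ := by
      rw [inner_add_right, inner_add_left, inner_smul_right, inner_smul_right, inner_smul_left,
        inner_smul_left, hE.adj, hF.adj, Complex.conj_ofReal, Complex.conj_ofReal]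
    have h2 : ‖⟪p, (c : ℂ) • E j i q + (s : ℂ) • F j i q⟫_ℂ‖ ^ 2 ≤
        (‖(c : ℂ) • E i j p + (s : ℂ) • F i j p‖ * ‖q‖) ^ 2 := by
      rw [h0]
      exact pow_le_pow_left₀ (norm_nonneg _) (norm_inner_le_norm _ _) 2
    rw [mul_pow] at h2
    rw [mul_comm (‖(c : ℂ) • E i j p + (s : ℂ) • F i j p‖ ^ 2)] at h2
    exact h2.trans (mul_le_mul_of_nonneg_left h1 (sq_nonneg _))
  · have key : ∀ u v : ℝ, 2 * (c * s) * (u * v) ≤ c * u ^ 2 + s * v ^ 2 := by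
      intro u v
      have h1 : c ^ 2 * u ^ 2 ≤ c * u ^ 2 := mul_le_mul_of_nonneg_right (by nlinarith) (sq_nonneg _)
      have h2 : s ^ 2 * v ^ 2 ≤ s * v ^ 2 := mul_le_mul_of_nonneg_right (by nlinarith) (sq_nonneg _)
      nlinarith [sq_nonneg (c * u - s * v)]
    have h1 := key ‖E i j q‖ ‖F i j q‖
    have h2 := key ‖E j i p‖ ‖F j i p‖
    linarith

/-- The core inequality. -/
theorem core {E F : ι → ι → H → H} (hE : IsProj E) (hF : IsProj F)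
    (hEF : ∀ i j k l x, E i j (F k l x) = F k l (E i j x)) {c s : ℝ} (hc : 0 ≤ c) (hs : 0 ≤ s)
    (hcs : c ^ 2 + s ^ 2 = 1) (p : ι → H) :
    c * (-2 * (∑ i, ∑ j, ⟪p i, E j i (p j)⟫_ℂ).re) + s * (-2 * (∑ i, ∑ j, ⟪p i, F j i (p j)⟫_ℂ).re)
      ≤ ∑ i, ∑ j, if i = j then 0 else ‖p i‖ * ‖p j‖ := by
  -- the pair terms
  set T : ι → ι → ℝ := fun i j => if i = j then 0 else
    (-2 * c * ‖E j i (p i)‖ ^ 2 - 2 * s * ‖F j i (p i)‖ ^ 2
      - 2 * (⟪p i, (c : ℂ) • E j i (p j) + (s : ℂ) • F j i (p j)⟫_ℂ).re) with hT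
  have hdiag : ∀ {E : ι → ι → H → H} (hE : IsProj E),
      -2 * (∑ i, ∑ j, ⟪p i, E j i (p j)⟫_ℂ).re ≤
        ∑ i, ∑ j, if i = j then 0 else
          (-2 * ‖E j i (p i)‖ ^ 2 - 2 * (⟪p i, E j i (p j)⟫_ℂ).re) := by
    intro E hE
    rw [Complex.re_sum, Finset.mul_sum]
    refine Finset.sum_le_sum fun i _ => ?_
    rw [Complex.re_sum, ← Finset.add_sum_erase _ _ (Finset.mem_univ i),
      ← Finset.add_sum_erase (Finset.univ) (fun j => if i = j then (0:ℝ) else _) (Finset.mem_univ i)]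
    have h1 : ∑ x ∈ Finset.univ.erase i, (if i = x then (0:ℝ) else
        (-2 * ‖E x i (p i)‖ ^ 2 - 2 * (⟪p i, E x i (p x)⟫_ℂ).re)) =
        -2 * ∑ x ∈ Finset.univ.erase i, ‖E x i (p i)‖ ^ 2
          - 2 * ∑ x ∈ Finset.univ.erase i, (⟪p i, E x i (p x)⟫_ℂ).re := by
      rw [Finset.mul_sum, Finset.mul_sum, ← Finset.sum_sub_distrib]
      refine Finset.sum_congr rfl fun x hx => ?_
      rw [if_neg (Finset.ne_of_mem_erase hx).symm]
    rw [h1, hE.diag i (p i), if_pos rfl,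
      ← Finset.add_sum_erase _ (fun k => ‖E k i (p i)‖ ^ 2) (Finset.mem_univ i)]
    nlinarith [sq_nonneg ‖E i i (p i)‖]
  have h1 : c * (-2 * (∑ i, ∑ j, ⟪p i, E j i (p j)⟫_ℂ).re)
      + s * (-2 * (∑ i, ∑ j, ⟪p i, F j i (p j)⟫_ℂ).re) ≤ ∑ i, ∑ j, T i j := by
    refine (add_le_add (mul_le_mul_of_nonneg_left (hdiag hE) hc)
      (mul_le_mul_of_nonneg_left (hdiag hF) hs)).trans (le_of_eq ?_)
    rw [Finset.mul_sum, Finset.mul_sum, ← Finset.sum_add_distrib]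
    refine Finset.sum_congr rfl fun i _ => ?_
    rw [Finset.mul_sum, Finset.mul_sum, ← Finset.sum_add_distrib]
    refine Finset.sum_congr rfl fun j _ => ?_
    simp only [hT]
    split_ifs with h
    · simp
    · rw [inner_add_right, inner_smul_right, inner_smul_right, Complex.add_re,
        Complex.re_ofReal_mul, Complex.re_ofReal_mul]
      ring
  have h2 : ∀ i j, T i j + T j i ≤ 2 * (if i = j then 0 else ‖p i‖ * ‖p j‖) := by
    intro i j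
    by_cases hij : i = j
    · simp [hT, hij]
    · have hji : ¬ j = i := fun h => hij h.symm
      simp only [hT, if_neg hij, if_neg hji]
      have h3 := pair hE hF hEF hc hs hcs hij (p i) (p j)
      have h4 : (⟪p j, (c : ℂ) • E i j (p i) + (s : ℂ) • F i j (p i)⟫_ℂ).re =
          (⟪p i, (c : ℂ) • E j i (p j) + (s : ℂ) • F j i (p j)⟫_ℂ).re := by
        have : ⟪p j, (c : ℂ) • E i j (p i) + (s : ℂ) • F i j (p i)⟫_ℂ =
            ⟪(c : ℂ) • E j i (p j) + (s : ℂ) • F j i (p j), p i⟫_ℂ := by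
          rw [inner_add_right, inner_add_left, inner_smul_right, inner_smul_right, inner_smul_left,
            inner_smul_left, hE.adj, hF.adj, Complex.conj_ofReal, Complex.conj_ofReal]
        rw [this, ← inner_conj_symm, Complex.conj_re]
      rw [h4]
      have h5 : -(⟪p i, (c : ℂ) • E j i (p j) + (s : ℂ) • F j i (p j)⟫_ℂ).re ≤
          ‖⟪p i, (c : ℂ) • E j i (p j) + (s : ℂ) • F j i (p j)⟫_ℂ‖ :=
        (neg_le_abs _).trans (Complex.abs_re_le_norm _)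
      linarith
  have h3 : ∑ i, ∑ j, T i j + ∑ i, ∑ j, T i j ≤
      2 * ∑ i, ∑ j, (if i = j then 0 else ‖p i‖ * ‖p j‖) := by
    conv_lhs => rw [show ∑ i, ∑ j, T i j + ∑ i, ∑ j, T i j = ∑ i, ∑ j, T i j + ∑ i, ∑ j, T j i by
      rw [Finset.sum_comm (f := fun i j => T j i)]]
    rw [← Finset.sum_add_distrib, Finset.mul_sum]
    refine Finset.sum_le_sum fun i _ => ?_
    rw [← Finset.sum_add_distrib, Finset.mul_sum]
    exact Finset.sum_le_sum fun j _ => h2 i j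
  linarith

end Pool.Agent.W106.MN
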