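import Mathlib

set_option autoImplicit false
open scoped ComplexConjugate InnerProductSpace Matrix

namespace Pool.Agent.W106.MN

variable {n : Type*} [Fintype n] [DecidableEq n]

theorem spec {X : Matrix n n ℂ} (hX : X.IsHermitian) :
    ∃ U : Matrix n n ℂ, Uᴴ * U = 1 ∧ U * Uᴴ = 1 ∧
      X = U * Matrix.diagonal (fun i => (hX.eigenvalues i : ℂ)) * Uᴴ := by
  refine ⟨(hX.eigenvectorUnitary : Matrix n n ℂ), ?_, ?_, ?_⟩
  · exact Unitary.coe_star_mul_self _
  · exact Unitary.coe_mul_star_self _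
  · exact hX.spectral_theorem

/-- The negativity is attained at a projection. -/
theorem neg_proj {X : Matrix n n ℂ} (hX : X.IsHermitian) :
    ∃ E : Matrix n n ℂ, Eᴴ = E ∧ E * E = E ∧
      ∑ i, (|hX.eigenvalues i| - hX.eigenvalues i) = -2 * ((E * X).trace).re := by
  obtain ⟨U, h1, h2, h3⟩ := spec hX
  set χ : n → ℂ := fun i => if hX.eigenvalues i < 0 then 1 else 0 with hχ
  refine ⟨U * Matrix.diagonal χ * Uᴴ, ?_, ?_, ?_⟩
  · rw [Matrix.conjTranspose_mul, Matrix.conjTranspose_mul, Matrix.conjTranspose_conjTranspose,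
      Matrix.diagonal_conjTranspose, ← Matrix.mul_assoc]
    congr 3
    ext i
    simp only [hχ, Pi.star_apply]
    split_ifs <;> simp
  · have : U * Matrix.diagonal χ * Uᴴ * (U * Matrix.diagonal χ * Uᴴ) =
        U * (Matrix.diagonal χ * (Uᴴ * U) * Matrix.diagonal χ) * Uᴴ := by
      simp only [Matrix.mul_assoc]
    rw [this, h1, Matrix.mul_one, Matrix.diagonal_mul_diagonal]
    congr 3
    ext i
    simp only [hχ]
    split_ifs <;> simp
  · have h4 : (U * Matrix.diagonal χ * Uᴴ * X).trace =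
        ∑ i, χ i * (hX.eigenvalues i : ℂ) := by
      conv_lhs => rw [h3]
      have : U * Matrix.diagonal χ * Uᴴ * (U * Matrix.diagonal (fun i => (hX.eigenvalues i : ℂ)) * Uᴴ)
          = U * (Matrix.diagonal χ * (Uᴴ * U) * Matrix.diagonal (fun i => (hX.eigenvalues i : ℂ))) * Uᴴ := by
        simp only [Matrix.mul_assoc]
      rw [this, h1, Matrix.mul_one, Matrix.diagonal_mul_diagonal, Matrix.trace_mul_comm,
        ← Matrix.mul_assoc, h1, Matrix.one_mul, Matrix.trace_diagonal]
    rw [h4, Complex.re_sum, Finset.mul_sum]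
    refine Finset.sum_congr rfl fun i _ => ?_
    simp only [hχ]
    split_ifs with h
    · rw [abs_of_neg h, one_mul, Complex.ofReal_re]; ring
    · rw [abs_of_nonneg (not_lt.mp h)]; simp

/-- Duality lower bound for the negativity. -/
theorem neg_ge {X : Matrix n n ℂ} (hX : X.IsHermitian) {S : Matrix n n ℂ}
    (hS : ∀ u : n → ℂ, ‖star u ⬝ᵥ (S *ᵥ u)‖ ≤ ∑ i, ‖u i‖ ^ 2) :
    ((S * X).trace).re - (X.trace).re ≤ ∑ i, (|hX.eigenvalues i| - hX.eigenvalues i) := by
  obtain ⟨U, h1, h2, h3⟩ := spec hX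
  have h4 : X.trace = ∑ i, (hX.eigenvalues i : ℂ) := by
    conv_lhs => rw [h3]
    rw [Matrix.trace_mul_comm, ← Matrix.mul_assoc, h1, Matrix.one_mul, Matrix.trace_diagonal]
  have h5 : (S * X).trace = ∑ i, (Uᴴ * S * U) i i * (hX.eigenvalues i : ℂ) := by
    conv_lhs => rw [h3]
    have : (S * (U * Matrix.diagonal (fun i => (hX.eigenvalues i : ℂ)) * Uᴴ)).trace =
        (Uᴴ * S * U * Matrix.diagonal (fun i => (hX.eigenvalues i : ℂ))).trace := by
      rw [← Matrix.mul_assoc, Matrix.trace_mul_comm]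
      simp only [Matrix.mul_assoc]
    rw [this, Matrix.trace]
    refine Finset.sum_congr rfl fun i _ => ?_
    rw [Matrix.diag_apply, Matrix.mul_diagonal]
  have h6 : ∀ i, ‖(Uᴴ * S * U) i i‖ ≤ 1 := by
    intro i
    have e1 : (Uᴴ * S * U) i i = star (fun k => U k i) ⬝ᵥ (S *ᵥ (fun k => U k i)) := by
      rw [Matrix.mul_assoc, Matrix.mul_apply]
      simp only [dotProduct, Matrix.mulVec, Matrix.mul_apply, Matrix.conjTranspose_apply,
        Pi.star_apply]
    have e2 : ∑ k, ‖U k i‖ ^ 2 = 1 := by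
      have : (Uᴴ * U) i i = 1 := by rw [h1]; simp
      rw [Matrix.mul_apply] at this
      have h := congrArg Complex.re this
      rw [Complex.re_sum] at h
      simp only [Matrix.conjTranspose_apply, Complex.one_re] at h
      rw [← h]
      refine Finset.sum_congr rfl fun k _ => ?_
      rw [Complex.star_def, ← Complex.normSq_eq_conj_mul_self, Complex.ofReal_re,
        Complex.normSq_eq_norm_sq]
    rw [e1, ← e2]
    exact hS _
  rw [h4, h5, Complex.re_sum, Complex.re_sum, ← Finset.sum_sub_distrib]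
  refine Finset.sum_le_sum fun i _ => ?_
  rw [Complex.re_mul_ofReal, Complex.ofReal_re]
  have h7 : ((Uᴴ * S * U) i i).re * hX.eigenvalues i ≤ |hX.eigenvalues i| := by
    refine (le_abs_self _).trans ?_
    rw [abs_mul]
    have := (Complex.abs_re_le_norm ((Uᴴ * S * U) i i)).trans (h6 i)
    nlinarith [abs_nonneg (hX.eigenvalues i)]
  linarith

end Pool.Agent.W106.MN
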