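import Pool.Agent.W106.MN.Core
import Pool.Agent.W106.MN.Mat

set_option autoImplicit false
open scoped ComplexConjugate InnerProductSpace Matrix Kronecker

namespace Pool.Agent.W106.MN

variable {A B C : Type*} [Fintype A] [DecidableEq A] [Fintype B] [DecidableEq B]
  [Fintype C] [DecidableEq C]

/-- partially transposed rank one matrix -/
def GM {Z : Type*} (P : A → Z → ℂ) : Matrix (A × Z) (A × Z) ℂ :=
  Matrix.of fun x y => P y.1 x.2 * star (P x.1 y.2)

/-- traced over `B` -/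
def GB (P : A → B × C → ℂ) : Matrix (A × C) (A × C) ℂ :=
  Matrix.of fun x y => ∑ j : B, P y.1 (j, x.2) * star (P x.1 (j, y.2))

/-- traced over `C` -/
def GC (P : A → B × C → ℂ) : Matrix (A × B) (A × B) ℂ :=
  Matrix.of fun x y => ∑ k : C, P y.1 (x.2, k) * star (P x.1 (y.2, k))

abbrev HS (B C : Type*) [Fintype B] [Fintype C] := EuclideanSpace ℂ (B × C)

noncomputable def blkB (M : Matrix B B ℂ) (x : HS B C) : HS B C :=
  WithLp.toLp 2 (fun jk => ∑ j', M jk.1 j' * x (j', jk.2))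

noncomputable def blkC (N : Matrix C C ℂ) (x : HS B C) : HS B C :=
  WithLp.toLp 2 (fun jk => ∑ k', N jk.2 k' * x (jk.1, k'))

omit [DecidableEq B] [DecidableEq C] in
theorem blk_comm (M : Matrix B B ℂ) (N : Matrix C C ℂ) (x : HS B C) :
    blkB M (blkC N x) = blkC N (blkB M x) := by
  ext jk
  simp only [blkB, blkC, Finset.mul_sum]
  rw [Finset.sum_comm]
  refine Finset.sum_congr rfl fun k _ => Finset.sum_congr rfl fun j _ => ?_
  ring

omit [DecidableEq B] [DecidableEq C] in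
theorem blkB_adj (M : Matrix B B ℂ) (x y : HS B C) :
    ⟪x, blkB M y⟫_ℂ = ⟪blkB Mᴴ x, y⟫_ℂ := by
  simp only [PiLp.inner_apply, RCLike.inner_apply, blkB, map_sum, map_mul, Fintype.sum_prod_type,
    Finset.mul_sum, Finset.sum_mul, Matrix.conjTranspose_apply, Complex.star_def, Complex.conj_conj]
  rw [Finset.sum_comm]
  conv_rhs => rw [Finset.sum_comm]
  refine Finset.sum_congr rfl fun k _ => ?_
  rw [Finset.sum_comm]
  refine Finset.sum_congr rfl fun j _ => Finset.sum_congr rfl fun j' _ => ?_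
  ring

omit [DecidableEq B] [DecidableEq C] in
theorem blkC_adj (M : Matrix C C ℂ) (x y : HS B C) :
    ⟪x, blkC M y⟫_ℂ = ⟪blkC Mᴴ x, y⟫_ℂ := by
  simp only [PiLp.inner_apply, RCLike.inner_apply, blkC, map_sum, map_mul, Fintype.sum_prod_type,
    Finset.mul_sum, Finset.sum_mul, Matrix.conjTranspose_apply, Complex.star_def, Complex.conj_conj]
  refine Finset.sum_congr rfl fun j _ => ?_
  rw [Finset.sum_comm]
  refine Finset.sum_congr rfl fun k _ => Finset.sum_congr rfl fun k' _ => ?_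
  ring

/-- block of a matrix -/
def eblk {Z : Type*} (E : Matrix (A × Z) (A × Z) ℂ) (i j : A) : Matrix Z Z ℂ :=
  Matrix.of fun β β' => E (i, β) (j, β')

omit [Fintype A] [DecidableEq A] in
theorem eblk_conj {Z : Type*} {E : Matrix (A × Z) (A × Z) ℂ} (hE : Eᴴ = E) (i j : A) :
    (eblk E i j)ᴴ = eblk E j i := by
  ext β β'
  simp only [eblk, Matrix.conjTranspose_apply, Matrix.of_apply]
  conv_rhs => rw [← hE]
  rfl

omit [DecidableEq A] [DecidableEq B] [DecidableEq C] in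
theorem isProjB {E : Matrix (A × B) (A × B) ℂ} (hE : Eᴴ = E) (hE2 : E * E = E) :
    IsProj (H := HS B C) (fun i j => blkB (eblk E i j)) where
  adj i j x y := by
    rw [blkB_adj, eblk_conj hE]
  mul i j x := by
    ext jk
    simp only [blkB, WithLp.ofLp_sum, Finset.sum_apply, eblk, Matrix.of_apply, Finset.mul_sum]
    have h : ∀ j'' : B, E (i, jk.1) (j, j'') = ∑ k, ∑ j', E (i, jk.1) (k, j') * E (k, j') (j, j'') := by
      intro j''
      conv_lhs => rw [← hE2]
      rw [Matrix.mul_apply, Fintype.sum_prod_type]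
    simp only [h, Finset.sum_mul]
    conv_rhs => rw [Finset.sum_comm]
    refine Finset.sum_congr rfl fun k _ => ?_
    rw [Finset.sum_comm]
    refine Finset.sum_congr rfl fun j'' _ => Finset.sum_congr rfl fun j' _ => ?_
    ring

omit [DecidableEq A] [DecidableEq B] [DecidableEq C] in
theorem isProjC {E : Matrix (A × C) (A × C) ℂ} (hE : Eᴴ = E) (hE2 : E * E = E) :
    IsProj (H := HS B C) (fun i j => blkC (eblk E i j)) where
  adj i j x y := by
    rw [blkC_adj, eblk_conj hE]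
  mul i j x := by
    ext jk
    simp only [blkC, WithLp.ofLp_sum, Finset.sum_apply, eblk, Matrix.of_apply, Finset.mul_sum]
    have h : ∀ j'' : C, E (i, jk.2) (j, j'') = ∑ k, ∑ j', E (i, jk.2) (k, j') * E (k, j') (j, j'') := by
      intro j''
      conv_lhs => rw [← hE2]
      rw [Matrix.mul_apply, Fintype.sum_prod_type]
    simp only [h, Finset.sum_mul]
    conv_rhs => rw [Finset.sum_comm]
    refine Finset.sum_congr rfl fun k _ => ?_
    rw [Finset.sum_comm]
    refine Finset.sum_congr rfl fun j'' _ => Finset.sum_congr rfl fun j' _ => ?_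
    ring

omit [DecidableEq A] [DecidableEq B] [DecidableEq C] in
theorem traceB (E : Matrix (A × B) (A × B) ℂ) (P : A → B × C → ℂ) :
    (E * GC P).trace =
      ∑ i, ∑ j, ⟪(WithLp.toLp 2 (P i) : HS B C), blkB (eblk E j i) (WithLp.toLp 2 (P j))⟫_ℂ := by
  simp only [PiLp.inner_apply, RCLike.inner_apply, blkB, eblk, GC, Matrix.trace, Matrix.diag_apply,
    Matrix.mul_apply, Matrix.of_apply, Fintype.sum_prod_type, Finset.mul_sum, Finset.sum_mul,
    Complex.star_def]
  -- LHS: ∑ i', ∑ β', ∑ i, ∑ β, ∑ k ; RHS: ∑ i, ∑ i', ∑ β', ∑ k, ∑ β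
  conv_rhs => rw [Finset.sum_comm]
  refine Finset.sum_congr rfl fun i' _ => ?_
  rw [Finset.sum_comm]
  refine Finset.sum_congr rfl fun i _ => Finset.sum_congr rfl fun β' _ => ?_
  rw [Finset.sum_comm]
  refine Finset.sum_congr rfl fun k _ => Finset.sum_congr rfl fun β _ => ?_
  ring

omit [DecidableEq A] [DecidableEq B] [DecidableEq C] in
theorem traceC (E : Matrix (A × C) (A × C) ℂ) (P : A → B × C → ℂ) :
    (E * GB P).trace =
      ∑ i, ∑ j, ⟪(WithLp.toLp 2 (P i) : HS B C), blkC (eblk E j i) (WithLp.toLp 2 (P j))⟫_ℂ := by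
  simp only [PiLp.inner_apply, RCLike.inner_apply, blkC, eblk, GB, Matrix.trace, Matrix.diag_apply,
    Matrix.mul_apply, Matrix.of_apply, Fintype.sum_prod_type, Finset.mul_sum, Finset.sum_mul,
    Complex.star_def]
  -- LHS: ∑ i', ∑ γ', ∑ i, ∑ γ, ∑ j ; RHS: ∑ i, ∑ i', ∑ j, ∑ γ', ∑ γ
  conv_rhs => rw [Finset.sum_comm]
  refine Finset.sum_congr rfl fun i' _ => ?_
  rw [Finset.sum_comm]
  refine Finset.sum_congr rfl fun i _ => ?_
  conv_rhs => rw [Finset.sum_comm]
  refine Finset.sum_congr rfl fun γ' _ => ?_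
  rw [Finset.sum_comm]
  refine Finset.sum_congr rfl fun j _ => Finset.sum_congr rfl fun γ _ => ?_
  ring

/-- change of basis of the family -/
def chg {Z : Type*} (V : Matrix A A ℂ) (P : A → Z → ℂ) : A → Z → ℂ :=
  fun i z => ∑ k, V k i * P k z

/-- conjugation by `V ⊗ 1` -/
theorem conj_kron {Z : Type*} [Fintype Z] [DecidableEq Z] (V : Matrix A A ℂ)
    (X : Matrix (A × Z) (A × Z) ℂ) (x y : A × Z) :
    ((V ⊗ₖ (1 : Matrix Z Z ℂ))ᴴ * X * (V ⊗ₖ (1 : Matrix Z Z ℂ))) x y =
      ∑ k, (∑ l, star (V l x.1) * X (l, x.2) (k, y.2)) * V k y.1 := by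
  rw [Matrix.mul_apply, Fintype.sum_prod_type]
  refine Finset.sum_congr rfl fun k _ => ?_
  rw [Finset.sum_eq_single y.2]
  · rw [Matrix.kroneckerMap_apply, Matrix.one_apply_eq, mul_one, Matrix.mul_apply,
      Fintype.sum_prod_type]
    congr 1
    refine Finset.sum_congr rfl fun l _ => ?_
    rw [Finset.sum_eq_single x.2]
    · simp [Matrix.conjTranspose_apply, Matrix.kroneckerMap_apply]
    · intro z _ hz
      simp [Matrix.conjTranspose_apply, Matrix.kroneckerMap_apply, Matrix.one_apply, hz]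
    · simp
  · intro z _ hz
    simp [Matrix.kroneckerMap_apply, Matrix.one_apply, hz]
  · simp

theorem GM_chg {Z : Type*} [Fintype Z] [DecidableEq Z] (V : Matrix A A ℂ) (P : A → Z → ℂ) :
    GM (chg V P) = (V ⊗ₖ (1 : Matrix Z Z ℂ))ᴴ * GM P * (V ⊗ₖ (1 : Matrix Z Z ℂ)) := by
  ext x y
  rw [conj_kron]
  simp only [GM, chg, Matrix.of_apply, Finset.sum_mul, Finset.mul_sum, star_sum, star_mul']
  rw [Finset.sum_comm]
  refine Finset.sum_congr rfl fun k _ => Finset.sum_congr rfl fun l _ => ?_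
  ring

theorem GC_chg (V : Matrix A A ℂ) (P : A → B × C → ℂ) :
    GC (chg V P) = (V ⊗ₖ (1 : Matrix B B ℂ))ᴴ * GC P * (V ⊗ₖ (1 : Matrix B B ℂ)) := by
  ext x y
  rw [conj_kron]
  simp only [GC, chg, Matrix.of_apply, Finset.sum_mul, Finset.mul_sum, star_sum, star_mul']
  -- LHS: ∑ κ, ∑ l, ∑ k ; RHS : ∑ k, ∑ l, ∑ κ
  rw [Finset.sum_comm]
  conv_rhs => rw [Finset.sum_comm]
  refine Finset.sum_congr rfl fun l _ => ?_
  rw [Finset.sum_comm]
  refine Finset.sum_congr rfl fun k _ => Finset.sum_congr rfl fun κ _ => ?_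
  ring

theorem GB_chg (V : Matrix A A ℂ) (P : A → B × C → ℂ) :
    GB (chg V P) = (V ⊗ₖ (1 : Matrix C C ℂ))ᴴ * GB P * (V ⊗ₖ (1 : Matrix C C ℂ)) := by
  ext x y
  rw [conj_kron]
  simp only [GB, chg, Matrix.of_apply, Finset.sum_mul, Finset.mul_sum, star_sum, star_mul']
  rw [Finset.sum_comm]
  conv_rhs => rw [Finset.sum_comm]
  refine Finset.sum_congr rfl fun l _ => ?_
  rw [Finset.sum_comm]
  refine Finset.sum_congr rfl fun k _ => Finset.sum_congr rfl fun κ _ => ?_
  ring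

theorem kron_unit {Z : Type*} [Fintype Z] [DecidableEq Z] {V : Matrix A A ℂ} (h : V * Vᴴ = 1) :
    (V ⊗ₖ (1 : Matrix Z Z ℂ)) * (V ⊗ₖ (1 : Matrix Z Z ℂ))ᴴ = 1 := by
  rw [Matrix.conjTranspose_kronecker, ← Matrix.mul_kronecker_mul, h, Matrix.conjTranspose_one,
    Matrix.one_mul, Matrix.one_kronecker_one]

end Pool.Agent.W106.MN
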